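import Mathlib

set_option autoImplicit false

namespace Pool.Agent.Results.MP_af3a77_al.ActionRestriction

/-- An object of setting (A) for the group `G`: a finite set `X` together with a homomorphism `ψ`
from `G` to the group `Sym(X)` of all permutations of `X`. -/
structure FinAct (G : Type) [Group G] : Type 1 where
  X : Type
  [fin : Finite X]
  ψ : G →* Equiv.Perm X

attribute [instance] FinAct.fin

variable {G : Type} [Group G]

/-- Isomorphism of finite actions. -/
def FinAct.IsIso (V W : FinAct G) : Prop :=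
  ∃ e : V.X ≃ W.X, ∀ (g : G) (x : V.X), e (V.ψ g x) = W.ψ g (e x)

/-- Isomorphism is an equivalence relation. -/
instance FinAct.isoSetoid (G : Type) [Group G] : Setoid (FinAct G) where
  r := FinAct.IsIso
  iseqv :=
    { refl := fun V => ⟨Equiv.refl V.X, fun _ _ => rfl⟩
      symm := by
        rintro V W ⟨e, he⟩
        refine ⟨e.symm, fun g x => ?_⟩
        apply e.injective
        rw [he, e.apply_symm_apply, e.apply_symm_apply]
      trans := by
        rintro V W U ⟨e, he⟩ ⟨f, hf⟩
        refine ⟨e.trans f, fun g x => ?_⟩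
        simp only [Equiv.trans_apply]
        rw [he, hf] }

/-- The disjoint union of two finite actions. -/
def FinAct.sum (V W : FinAct G) : FinAct G where
  X := V.X ⊕ W.X
  ψ :=
    { toFun := fun g => Equiv.sumCongr (V.ψ g) (W.ψ g)
      map_one' := by
        ext x
        rcases x with x | x <;> simp
      map_mul' := by
        intro g h
        ext x
        rcases x with x | x <;> simp }

/-- The empty action. -/
def FinAct.zero (G : Type) [Group G] : FinAct G where
  X := PEmpty
  ψ := 1

/-- The restriction of an action along a homomorphism. -/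
def FinAct.comp {H : Type} [Group H] (V : FinAct G) (i : H →* G) : FinAct H where
  X := V.X
  ψ := V.ψ.comp i

/-- `Λ⁺(G)`: the commutative monoid of isomorphism classes of finite actions of `G` under
disjoint union (which is the free commutative monoid on the set of isomorphism classes of
transitive ones). -/
def Lam (G : Type) [Group G] : Type 1 := Quotient (FinAct.isoSetoid G)

/-- Addition on `Λ⁺(G)` is disjoint union. -/
instance Lam.instAdd (G : Type) [Group G] : Add (Lam G) where
  add := Quotient.map₂ FinAct.sum (by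
    rintro V V' ⟨e, he⟩ W W' ⟨f, hf⟩
    refine ⟨Equiv.sumCongr e f, fun g x => ?_⟩
    rcases x with x | x
    · exact congrArg Sum.inl (he g x)
    · exact congrArg Sum.inr (hf g x))

/-- The zero of `Λ⁺(G)` is the class of the empty action. -/
instance Lam.instZero (G : Type) [Group G] : Zero (Lam G) where
  zero := Quotient.mk _ (FinAct.zero G)

/-- `Λ⁺(G)` is a commutative monoid under disjoint union. -/
instance Lam.instAddCommMonoid (G : Type) [Group G] : AddCommMonoid (Lam G) where
  add_assoc := by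
    rintro ⟨V⟩ ⟨W⟩ ⟨U⟩
    refine Quotient.sound ⟨Equiv.sumAssoc V.X W.X U.X, fun g x => ?_⟩
    rcases x with (x | x) | x <;> rfl
  add_comm := by
    rintro ⟨V⟩ ⟨W⟩
    refine Quotient.sound ⟨Equiv.sumComm V.X W.X, fun g x => ?_⟩
    rcases x with x | x <;> rfl
  zero_add := by
    rintro ⟨V⟩
    refine Quotient.sound ⟨Equiv.emptySum PEmpty V.X, fun g x => ?_⟩
    rcases x with x | x
    · exact x.elim
    · rfl
  add_zero := by
    rintro ⟨V⟩
    refine Quotient.sound ⟨Equiv.sumEmpty V.X PEmpty, fun g x => ?_⟩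
    rcases x with x | x
    · rfl
    · exact x.elim
  nsmul := nsmulRec

/-- The class `ψ^#` in `Λ⁺(G)` of an action `ψ`. -/
def FinAct.cls (V : FinAct G) : Lam G := Quotient.mk _ V

/-- The restriction map `Λ⁺(G) → Λ⁺(H)`, `ψ^# ↦ (ψ ∘ i)^#`, an additive homomorphism. -/
def res {H : Type} [Group H] (i : H →* G) : Lam G →+ Lam H where
  toFun := Quotient.map (fun V => V.comp i) (by
    rintro V V' ⟨e, he⟩
    exact ⟨e, fun g x => he (i g) x⟩)
  map_zero' := by
    refine Quotient.sound ⟨Equiv.refl _, fun g x => ?_⟩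
    exact x.elim
  map_add' := by
    rintro ⟨V⟩ ⟨W⟩
    rfl

/-! ### The example -/

/-- The relators of the example: `t s t⁻¹ = s²`, `d² = 1` and `d` commutes with `s d s⁻¹`. -/
def rels : Set (FreeGroup (Fin 3)) :=
  {FreeGroup.of 1 * FreeGroup.of 0 * (FreeGroup.of 1)⁻¹ * (FreeGroup.of 0 * FreeGroup.of 0)⁻¹,
   FreeGroup.of 2 * FreeGroup.of 2,
   FreeGroup.of 2 * (FreeGroup.of 0 * FreeGroup.of 2 * (FreeGroup.of 0)⁻¹) *
     (FreeGroup.of 0 * FreeGroup.of 2 * (FreeGroup.of 0)⁻¹ * FreeGroup.of 2)⁻¹}

/-- The group of the example. -/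
abbrev Ex : Type := PresentedGroup rels

def s : Ex := PresentedGroup.of 0
def t : Ex := PresentedGroup.of 1
def d : Ex := PresentedGroup.of 2
def d' : Ex := s * d * s⁻¹

lemma rel1 : t * s * t⁻¹ = s * s := by
  have := (QuotientGroup.eq_one_iff (N := Subgroup.normalClosure rels)
    (FreeGroup.of 1 * FreeGroup.of 0 * (FreeGroup.of 1)⁻¹ *
      (FreeGroup.of 0 * FreeGroup.of 0)⁻¹ : FreeGroup (Fin 3))).2
    (Subgroup.subset_normalClosure (by simp [rels]))
  have h2 : t * s * t⁻¹ * (s * s)⁻¹ = 1 := this
  exact mul_inv_eq_one.1 h2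

lemma rel2 : d * d = 1 := by
  have := (QuotientGroup.eq_one_iff (N := Subgroup.normalClosure rels)
    (FreeGroup.of 2 * FreeGroup.of 2 : FreeGroup (Fin 3))).2
    (Subgroup.subset_normalClosure (by simp [rels]))
  exact this

lemma rel3 : d * d' = d' * d := by
  have := (QuotientGroup.eq_one_iff (N := Subgroup.normalClosure rels)
    (FreeGroup.of 2 * (FreeGroup.of 0 * FreeGroup.of 2 * (FreeGroup.of 0)⁻¹) *
     (FreeGroup.of 0 * FreeGroup.of 2 * (FreeGroup.of 0)⁻¹ * FreeGroup.of 2)⁻¹ :
       FreeGroup (Fin 3))).2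
    (Subgroup.subset_normalClosure (by simp [rels]))
  have h2 : d * d' * (d' * d)⁻¹ = 1 := this
  exact mul_inv_eq_one.1 h2

lemma rel4 : d' * d' = 1 := by
  have : d' * d' = s * (d * d) * s⁻¹ := by
    simp only [d', mul_assoc, inv_mul_cancel_left]
  rw [this, rel2]; simp

instance : Group.IsFinitelyPresented Ex :=
  ⟨3, PresentedGroup.mk rels, PresentedGroup.mk_surjective rels, rels, by
    unfold rels
    exact (Set.finite_singleton _).insert _ |>.insert _, by
    exact (QuotientGroup.ker_mk' (Subgroup.normalClosure rels)).symm⟩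

lemma psi_mul {G : Type} [Group G] (V : FinAct G) (g k : G) (x : V.X) :
    V.ψ g (V.ψ k x) = V.ψ (g * k) x := by
  rw [map_mul]; rfl

lemma psi_one {G : Type} [Group G] (V : FinAct G) (x : V.X) : V.ψ 1 x = x := by
  rw [map_one]; rfl

/-- The permutation by which `s` acts on a finite set has odd order. -/
lemma odd_order (V : FinAct Ex) : Odd (orderOf (V.ψ s)) := by
  have hc : IsConj (V.ψ s) (V.ψ s ^ 2) := by
    rw [isConj_iff]
    refine ⟨V.ψ t, ?_⟩
    rw [← map_inv, ← map_mul, ← map_mul, rel1, map_mul, pow_two]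
  have h1 : orderOf (V.ψ s) = orderOf (V.ψ s ^ 2) := by
    obtain ⟨c, hc⟩ := isConj_iff.1 hc
    rw [← hc, ← MulAut.conj_apply, MulEquiv.orderOf_eq]
  have hpos : 0 < orderOf (V.ψ s) := orderOf_pos _
  rw [orderOf_pow] at h1
  by_contra hodd
  rw [Nat.not_odd_iff_even] at hodd
  have h2 : Nat.gcd (orderOf (V.ψ s)) 2 = 2 := Nat.gcd_eq_right hodd.two_dvd
  rw [h2] at h1
  omega

/-- In every nonempty finite action some point is not fixed by exactly one of `d`, `d'`. -/
lemma exists_bad (V : FinAct Ex) [Nonempty V.X] :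
    ∃ x : V.X, (V.ψ d x = x ↔ V.ψ d' x = x) := by
  by_contra hcon
  push Not at hcon
  -- `s⁻¹` interchanges fixed and non-fixed points of `d`
  have hd' : ∀ x : V.X, V.ψ d' (V.ψ s x) = V.ψ s x ↔ V.ψ d x = x := by
    intro x
    have h1 : V.ψ d' (V.ψ s x) = V.ψ s (V.ψ d x) := by
      simp only [psi_mul]
      congr 2
      simp only [d', mul_assoc, inv_mul_cancel, mul_one]
    rw [h1]
    exact (V.ψ s).injective.eq_iff
  have hswap : ∀ x : V.X, V.ψ d (V.ψ s x) = V.ψ s x ↔ ¬ V.ψ d x = x := by
    intro x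
    have h2 := hcon (V.ψ s x)
    have h3 := hd' x
    tauto
  have hpow : ∀ (k : ℕ) (x : V.X), V.ψ d (((V.ψ s) ^ (2 * k + 1)) x) = ((V.ψ s) ^ (2 * k + 1)) x ↔
      ¬ V.ψ d x = x := by
    intro k
    induction k with
    | zero =>
      intro x
      simpa using hswap x
    | succ k ih =>
      intro x
      have h3 : (V.ψ s ^ (2 * (k + 1) + 1)) x = (V.ψ s ^ (2 * k + 1)) (V.ψ s (V.ψ s x)) := by
        rw [show 2 * (k + 1) + 1 = (2 * k + 1) + 1 + 1 by ring, pow_succ, pow_succ]; rfl
      rw [h3, ih, hswap, hswap]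
      tauto
  obtain ⟨k, hk⟩ := odd_order V
  obtain ⟨x⟩ := ‹Nonempty V.X›
  have h4 := hpow k x
  rw [← hk, pow_orderOf_eq_one] at h4
  simp at h4

/-! ### The actions on `2(2m+1)` points -/

section Family

variable (m : ℕ)

/-- Odd modulus. -/
abbrev Idx : Type := ZMod (2 * m + 1)

/-- Multiplication by `2` modulo `2m+1`. -/
def dbl : Equiv.Perm (Idx m) where
  toFun x := 2 * x
  invFun x := (m + 1) * x
  left_inv x := by
    have h1 : ((2 * m + 1 : ℕ) : Idx m) = 0 := ZMod.natCast_self _
    push_cast at h1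
    linear_combination x * h1
  right_inv x := by
    have h1 : ((2 * m + 1 : ℕ) : Idx m) = 0 := ZMod.natCast_self _
    push_cast at h1
    linear_combination x * h1

/-- The shift `x ↦ x + 1`. -/
def shift : Equiv.Perm (Idx m) where
  toFun x := x + 1
  invFun x := x - 1
  left_inv x := by simp
  right_inv x := by simp

/-- The parity of `0 ≤ x ≤ 2m`. -/
def par (x : Idx m) : ZMod 2 := x.val

lemma par_sub_one (x : Idx m) (hx : x ≠ 0) : par m (x - 1) = par m x + 1 := by
  have hpos : 0 < x.val := Nat.pos_of_ne_zero (by simpa using hx)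
  have h1 : x.val = (x - 1).val + 1 := by
    have h2 : x = ((x.val - 1 : ℕ) : Idx m) + 1 := by
      have : ((x.val - 1 + 1 : ℕ) : Idx m) = x := by
        rw [Nat.sub_add_cancel hpos]; simp
      push_cast at this
      exact this.symm
    have h3 : x - 1 = ((x.val - 1 : ℕ) : Idx m) := by
      rw [sub_eq_iff_eq_add]; exact h2
    rw [h3, ZMod.val_natCast_of_lt]
    · omega
    · have := ZMod.val_lt x
      omega
  unfold par
  rw [h1]
  push_cast
  rw [add_assoc, show (1 : ZMod 2) + 1 = 0 by decide, add_zero]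

/-- Addition of the parity in the second coordinate. -/
def flip : Equiv.Perm (Idx m × ZMod 2) where
  toFun p := (p.1, p.2 + par m p.1)
  invFun p := (p.1, p.2 + par m p.1)
  left_inv p := by
    have : ∀ z : ZMod 2, z + z = 0 := by decide
    ext <;> simp [add_assoc, this]
  right_inv p := by
    have : ∀ z : ZMod 2, z + z = 0 := by decide
    ext <;> simp [add_assoc, this]

/-- The images of the generators. -/
def gens : Fin 3 → Equiv.Perm (Idx m × ZMod 2) :=
  ![Equiv.prodCongr (shift m) (Equiv.refl _), Equiv.prodCongr (dbl m) (Equiv.refl _), flip m]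

lemma gens_rels : ∀ r ∈ rels, FreeGroup.lift (gens m) r = 1 := by
  have key : ∀ p : Idx m × ZMod 2, (gens m 0 * gens m 2 * (gens m 0)⁻¹) p =
      (p.1, p.2 + par m (p.1 - 1)) := by
    intro p
    change (gens m 0) ((gens m 2) ((p.1 - 1, p.2))) = _
    change ((p.1 - 1 + 1, p.2 + par m (p.1 - 1)) : Idx m × ZMod 2) = _
    rw [sub_add_cancel]
  intro r hr
  simp only [rels, Set.mem_insert_iff, Set.mem_singleton_iff] at hr
  rcases hr with rfl | rfl | rfl
  · simp only [map_mul, map_inv, FreeGroup.lift_apply_of]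
    rw [mul_inv_eq_one, mul_inv_eq_iff_eq_mul]
    apply Equiv.ext
    intro p
    change ((2 * (p.1 + 1), p.2) : Idx m × ZMod 2) = (2 * p.1 + 1 + 1, p.2)
    congr 1
    ring
  · simp only [map_mul, FreeGroup.lift_apply_of]
    apply Equiv.ext
    intro p
    change ((p.1, p.2 + par m p.1 + par m p.1) : Idx m × ZMod 2) = p
    have : ∀ z : ZMod 2, z + z = 0 := by decide
    rw [add_assoc, this, add_zero]
  · simp only [map_mul, map_inv, FreeGroup.lift_apply_of]
    rw [mul_inv_eq_one]
    apply Equiv.ext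
    intro p
    rw [Equiv.Perm.mul_apply, Equiv.Perm.mul_apply (gens m 0 * gens m 2 * (gens m 0)⁻¹), key, key]
    change ((p.1, p.2 + par m (p.1 - 1) + par m p.1) : Idx m × ZMod 2) =
      (p.1, p.2 + par m p.1 + par m (p.1 - 1))
    congr 1
    ring

/-- The action of `Ex` on `2(2m+1)` points. -/
def act : FinAct Ex where
  X := Idx m × ZMod 2
  ψ := PresentedGroup.toGroup (gens_rels m)

lemma act_d_eq : (act m).ψ d = gens m 2 := by
  change PresentedGroup.toGroup (gens_rels m) d = _
  simp only [d, PresentedGroup.toGroup.of]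

lemma act_d'_eq : (act m).ψ d' = gens m 0 * gens m 2 * (gens m 0)⁻¹ := by
  change PresentedGroup.toGroup (gens_rels m) d' = _
  simp only [d', d, s, map_mul, map_inv, PresentedGroup.toGroup.of]

lemma gens_d (p : Idx m × ZMod 2) : gens m 2 p = (p.1, p.2 + par m p.1) := rfl

lemma gens_d' (p : Idx m × ZMod 2) :
    (gens m 0 * gens m 2 * (gens m 0)⁻¹) p = (p.1, p.2 + par m (p.1 - 1)) := by
  change (gens m 0) ((gens m 2) ((p.1 - 1, p.2))) = _
  change ((p.1 - 1 + 1, p.2 + par m (p.1 - 1)) : Idx m × ZMod 2) = _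
  rw [sub_add_cancel]

end Family

/-! ### The subgroup of order 4 and the two additive functions -/

/-- The subgroup `{1, d, d', d d'}`. -/
def Hsub : Subgroup Ex where
  carrier := {1, d, d', d * d'}
  mul_mem' := by
    have r5 : d' * d = d * d' := rel3.symm
    have r6 : d * (d * d') = d' := by rw [← mul_assoc, rel2, one_mul]
    have r7 : d' * (d * d') = d := by rw [← mul_assoc, r5, mul_assoc, rel4, mul_one]
    have r8 : d * d' * d = d' := by rw [mul_assoc, r5, r6]
    have r9 : d * d' * d' = d := by rw [mul_assoc, rel4, mul_one]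
    have r10 : d * d' * (d * d') = 1 := by rw [← mul_assoc, r8, rel4]
    intro a b ha hb
    simp only [Set.mem_insert_iff, Set.mem_singleton_iff] at ha hb ⊢
    rcases ha with rfl | rfl | rfl | rfl <;> rcases hb with rfl | rfl | rfl | rfl <;>
      simp [rel2, rel4, r5, r6, r7, r8, r9, r10]
  one_mem' := by simp
  inv_mem' := by
    have i1 : d⁻¹ = d := inv_eq_of_mul_eq_one_right rel2
    have i2 : d'⁻¹ = d' := inv_eq_of_mul_eq_one_right rel4
    intro a ha
    simp only [Set.mem_insert_iff, Set.mem_singleton_iff] at ha ⊢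
    rcases ha with rfl | rfl | rfl | rfl
    · simp
    · simp [i1]
    · simp [i2]
    · rw [mul_inv_rev, i1, i2, ← rel3]; simp

lemma d_mem : d ∈ Hsub := by
  change d ∈ ({1, d, d', d * d'} : Set Ex)
  simp

lemma d'_mem : d' ∈ Hsub := by
  change d' ∈ ({1, d, d', d * d'} : Set Ex)
  simp

lemma card_Hsub : Nat.card Hsub = 4 := by
  have n1 : d ≠ 1 := by
    intro h
    have h1 := act_d_eq 1
    rw [h, map_one] at h1
    have h1' : (1 : Equiv.Perm (Idx 1 × ZMod 2)) = gens 1 2 := h1
    have h2 := Equiv.congr_fun h1' (1, 0)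
    rw [gens_d] at h2
    exact absurd h2 (by decide)
  have n2 : d' ≠ 1 := by
    intro h
    have h1 := act_d'_eq 1
    rw [h, map_one] at h1
    have h1' : (1 : Equiv.Perm (Idx 1 × ZMod 2)) = gens 1 0 * gens 1 2 * (gens 1 0)⁻¹ := h1
    have h2 := Equiv.congr_fun h1' (2, 0)
    rw [gens_d'] at h2
    exact absurd h2 (by decide)
  have n3 : d ≠ d' := by
    intro h
    have h1 := act_d'_eq 1
    rw [← h, act_d_eq] at h1
    have h1' : gens 1 2 = gens 1 0 * gens 1 2 * (gens 1 0)⁻¹ := h1
    have h2 := Equiv.congr_fun h1' (2, 0)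
    rw [gens_d', gens_d] at h2
    exact absurd h2 (by decide)
  have i2 : d'⁻¹ = d' := inv_eq_of_mul_eq_one_right rel4
  have n4 : d * d' ≠ 1 := by
    intro h
    rw [mul_eq_one_iff_eq_inv, i2] at h
    exact n3 h
  have n5 : d * d' ≠ d := by simpa using n2
  have n6 : d * d' ≠ d' := by simpa using n1
  change Nat.card (({1, d, d', d * d'} : Set Ex)) = 4
  rw [Nat.card_coe_set_eq, Set.ncard_insert_of_notMem, Set.ncard_insert_of_notMem,
    Set.ncard_insert_of_notMem, Set.ncard_singleton]
  · simpa using n6.symm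
  · simp [n3, n2]
  · simp [n1.symm, n2.symm, n4.symm]

/-- The number of points as an additive function on `Λ⁺(H)`. -/
noncomputable def cardHom (H : Type) [Group H] : Lam H →+ ℕ where
  toFun := Quotient.lift (fun V : FinAct H => Nat.card V.X) (by
    rintro V W ⟨e, he⟩
    exact Nat.card_congr e)
  map_zero' := by
    change Nat.card PEmpty = 0
    simp
  map_add' := by
    rintro ⟨V⟩ ⟨W⟩
    change Nat.card (V.X ⊕ W.X) = Nat.card V.X + Nat.card W.X
    exact Nat.card_sum

/-- For `a b : H`, the number of points fixed by both or by none of `a`, `b`. -/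
noncomputable def badHom (H : Type) [Group H] (a b : H) : Lam H →+ ℕ where
  toFun := Quotient.lift
    (fun V : FinAct H => Nat.card {x : V.X // (V.ψ a x = x ↔ V.ψ b x = x)}) (by
    rintro V W ⟨e, he⟩
    refine Nat.card_congr (e.subtypeEquiv fun x => ?_)
    rw [← he, ← he, e.injective.eq_iff, e.injective.eq_iff])
  map_zero' := by
    change Nat.card {x : (FinAct.zero H).X // _} = 0
    have : IsEmpty (FinAct.zero H).X := inferInstanceAs (IsEmpty PEmpty)
    exact Nat.card_of_isEmpty
  map_add' := by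
    rintro ⟨V⟩ ⟨W⟩
    change Nat.card {x : V.X ⊕ W.X // ((V.sum W).ψ a x = x ↔ (V.sum W).ψ b x = x)} =
      Nat.card {x : V.X // (V.ψ a x = x ↔ V.ψ b x = x)} +
      Nat.card {x : W.X // (W.ψ a x = x ↔ W.ψ b x = x)}
    rw [← Nat.card_sum]
    refine Nat.card_congr ?_
    refine (Equiv.subtypeSum).trans (Equiv.sumCongr (Equiv.subtypeEquivRight fun x => ?_)
      (Equiv.subtypeEquivRight fun x => ?_))
    · change (Sum.inl (V.ψ a x) = (Sum.inl x : V.X ⊕ W.X) ↔ Sum.inl (V.ψ b x) = Sum.inl x) ↔ _
      rw [Sum.inl_injective.eq_iff, Sum.inl_injective.eq_iff]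
    · change (Sum.inr (W.ψ a x) = (Sum.inr x : V.X ⊕ W.X) ↔ Sum.inr (W.ψ b x) = Sum.inr x) ↔ _
      rw [Sum.inr_injective.eq_iff, Sum.inr_injective.eq_iff]

/-- A submonoid on which `N > 0` forces `b > 0` but `N / b` is unbounded is not finitely
generated. -/
lemma not_fg {L : Type 1} [AddCommMonoid L] (S : AddSubmonoid L) (N b : L →+ ℕ)
    (h1 : ∀ x ∈ S, 0 < N x → 0 < b x) (h2 : ∀ C : ℕ, ∃ x ∈ S, C * b x < N x) : ¬ S.FG := by
  rintro ⟨T, hT⟩
  obtain ⟨x, hx, hlt⟩ := h2 (T.sup N)
  have key : ∀ y ∈ AddSubmonoid.closure (T : Set L), N y ≤ (T.sup N) * b y := by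
    intro y hy
    induction hy using AddSubmonoid.closure_induction with
    | mem y hy =>
      rcases Nat.eq_zero_or_pos (N y) with h0 | h0
      · omega
      · have hyS : y ∈ S := by rw [← hT]; exact AddSubmonoid.subset_closure hy
        have h3 := h1 y hyS h0
        calc N y ≤ T.sup N := Finset.le_sup (f := N) hy
          _ ≤ (T.sup N) * b y := Nat.le_mul_of_pos_right _ h3
    | zero => simp
    | add y z _ _ hy hz =>
      rw [map_add, map_add, mul_add]
      exact add_le_add hy hz
  rw [hT] at key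
  exact absurd (key x hx) (not_le.2 hlt)

/-- **Negative answer to Q2 (setting (A)).** There are a finitely presented group `G` and a
subgroup `H` of order `4` such that the image of the restriction map
`i^* : Λ⁺(G) → Λ⁺(H)` is not a finitely generated commutative monoid. -/
theorem result : ∃ (G : Type) (_ : Group G) (H : Subgroup G),
    Group.IsFinitelyPresented G ∧ Group.FG G ∧ Nat.card H = 4 ∧
      ¬ (AddMonoidHom.mrange (res (G := G) H.subtype)).FG := by
  refine ⟨Ex, inferInstance, Hsub, inferInstance, ?_, card_Hsub, ?_⟩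
  · exact Group.fg_of_surjective (PresentedGroup.mk_surjective rels)
  · refine not_fg _ (cardHom Hsub) (badHom Hsub ⟨d, d_mem⟩ ⟨d', d'_mem⟩) ?_ ?_
    · rintro _ ⟨⟨V⟩, rfl⟩ hpos
      change 0 < Nat.card {x : V.X // (V.ψ d x = x ↔ V.ψ d' x = x)}
      change 0 < Nat.card V.X at hpos
      have : Nonempty V.X := (Nat.card_pos_iff.1 hpos).1
      obtain ⟨x, hx⟩ := exists_bad V
      have : Nonempty {x : V.X // (V.ψ d x = x ↔ V.ψ d' x = x)} := ⟨⟨x, hx⟩⟩
      exact Nat.card_pos
    · intro C
      refine ⟨res Hsub.subtype (act C).cls, ⟨_, rfl⟩, ?_⟩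
      change C * Nat.card {x : (act C).X // ((act C).ψ d x = x ↔ (act C).ψ d' x = x)} <
        Nat.card (Idx C × ZMod 2)
      have h1 : Nat.card {x : (act C).X // ((act C).ψ d x = x ↔ (act C).ψ d' x = x)} ≤ 2 := by
        have hz : ∀ x : {x : (act C).X // ((act C).ψ d x = x ↔ (act C).ψ d' x = x)},
            (x.1 : Idx C × ZMod 2).1 = 0 := by
          rintro ⟨x, hx⟩
          rw [act_d_eq, act_d'_eq] at hx
          by_contra h0
          have hx' : ∀ p : Idx C × ZMod 2, p = x → p.1 ≠ 0 →
              ¬ (gens C 2 p = p ↔ (gens C 0 * gens C 2 * (gens C 0)⁻¹) p = p) := by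
            intro p _ hp
            rw [gens_d, gens_d', par_sub_one C _ hp]
            generalize par C p.1 = u
            obtain ⟨p1, p2⟩ := p
            simp only [Prod.mk.injEq, true_and, add_eq_left]
            revert u
            decide
          exact hx' x rfl h0 hx
        let f : {x : (act C).X // ((act C).ψ d x = x ↔ (act C).ψ d' x = x)} → ZMod 2 :=
          fun x => (x.1 : Idx C × ZMod 2).2
        have hf : Function.Injective f := by
          intro x y hxy
          apply Subtype.ext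
          exact Prod.ext ((hz x).trans (hz y).symm) hxy
        have := Nat.card_le_card_of_injective f hf
        simpa using this
      have h2 : Nat.card (Idx C × ZMod 2) = (2 * C + 1) * 2 := by
        rw [Nat.card_prod]; simp
      rw [h2]
      nlinarith

end Pool.Agent.Results.MP_af3a77_al.ActionRestriction
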