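import Mathlib

set_option autoImplicit false

namespace Pool.Agent.Results.MP_af3a77_al.UnitaryRestriction

/-- A finite-dimensional complex Hilbert space. -/
structure HS : Type 1 where
  E : Type
  [normed : NormedAddCommGroup E]
  [inner : InnerProductSpace ℂ E]
  [findim : FiniteDimensional ℂ E]

attribute [instance] HS.normed HS.inner HS.findim

/-- The unitary isomorphisms (surjective linear isometries) from `X` to `Y`. -/
def HS.Iso (X Y : HS) : Type := X.E ≃ₗᵢ[ℂ] Y.E

/-- The value of a unitary isomorphism at a vector. -/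
noncomputable def HS.Iso.app {X Y : HS} (e : HS.Iso X Y) : X.E → Y.E :=
  LinearIsometryEquiv.toLinearEquiv e

/-- The unitary group of `X`: the unitary automorphisms of `X`. -/
def HS.U (X : HS) : Type := HS.Iso X X

/-- The group structure of the unitary group is composition. -/
noncomputable instance HS.instGroupU (X : HS) : Group X.U := LinearIsometryEquiv.instGroup

/-- The orthogonal direct sum of two Hilbert spaces. -/
noncomputable def HS.sum (X Y : HS) : HS where
  E := WithLp 2 (X.E × Y.E)

/-- The direct sum of two unitary isomorphisms, `(x, y) ↦ (e x, f y)`. -/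
noncomputable def HS.Iso.sum {X X' Y Y' : HS} (e : HS.Iso X X') (f : HS.Iso Y Y') :
    HS.Iso (X.sum Y) (X'.sum Y') :=
  LinearIsometryEquiv.withLpProdCongr 2 e f

/-- An object of setting (R) for the group `G`: a finite-dimensional complex Hilbert space `X`
together with a homomorphism `ψ` from `G` to the unitary group of `X`. -/
structure URep (G : Type) [Group G] : Type 1 where
  X : HS
  ψ : G →* X.U

variable {G : Type} [Group G]

/-- Isomorphism (unitary equivalence) of finite-dimensional unitary representations. -/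
def URep.IsIso (V W : URep G) : Prop :=
  ∃ e : HS.Iso V.X W.X, ∀ (g : G) (x : V.X.E), e.app ((V.ψ g).app x) = (W.ψ g).app (e.app x)

/-- Isomorphism is an equivalence relation. -/
instance URep.isoSetoid (G : Type) [Group G] : Setoid (URep G) where
  r := URep.IsIso
  iseqv :=
    { refl := fun V => ⟨LinearIsometryEquiv.refl ℂ V.X.E, fun _ _ => rfl⟩
      symm := by
        rintro V W ⟨e, he⟩
        refine ⟨LinearIsometryEquiv.symm e, fun g x => ?_⟩
        have h1 := he g ((LinearIsometryEquiv.symm e) x)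
        change e.app _ = (W.ψ g).app (LinearIsometryEquiv.toLinearEquiv e
          ((LinearIsometryEquiv.symm e) x)) at h1
        apply LinearIsometryEquiv.injective e
        change (LinearIsometryEquiv.toLinearEquiv e)
          ((LinearIsometryEquiv.toLinearEquiv e).symm ((W.ψ g).app x)) = e.app _
        refine ((LinearIsometryEquiv.toLinearEquiv e).apply_symm_apply _).trans ?_
        refine Eq.trans ?_ h1.symm
        congr 1
        exact ((LinearIsometryEquiv.toLinearEquiv e).apply_symm_apply x).symm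
      trans := by
        rintro V W U ⟨e, he⟩ ⟨f, hf⟩
        refine ⟨LinearIsometryEquiv.trans e f, fun g x => ?_⟩
        change f.app (e.app _) = (U.ψ g).app (f.app (e.app x))
        rw [he, hf] }

/-- The orthogonal direct sum of two finite-dimensional unitary representations. -/
noncomputable def URep.sum (V W : URep G) : URep G where
  X := V.X.sum W.X
  ψ :=
    { toFun := fun g => (V.ψ g).sum (W.ψ g)
      map_one' := by
        rw [map_one, map_one]
        rfl
      map_mul' := by
        intro g h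
        rw [map_mul, map_mul]
        rfl }

/-- The zero Hilbert space. -/
noncomputable def HS.zero : HS where
  E := PUnit

/-- The zero representation. -/
noncomputable def URep.zero (G : Type) [Group G] : URep G where
  X := HS.zero
  ψ := 1

/-- The restriction `ψ ∘ i` of a representation along a homomorphism `i`. -/
noncomputable def URep.comp {H : Type} [Group H] (V : URep G) (i : H →* G) : URep H where
  X := V.X
  ψ := V.ψ.comp i

/-- `Λ⁺(G)`: the commutative monoid of isomorphism classes of finite-dimensional unitary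
representations of `G` under direct sum (which is the free commutative monoid on the set of
isomorphism classes of irreducible ones). -/
def Lam (G : Type) [Group G] : Type 1 := Quotient (URep.isoSetoid G)

/-- Addition on `Λ⁺(G)` is direct sum. -/
noncomputable instance Lam.instAdd (G : Type) [Group G] : Add (Lam G) where
  add := Quotient.map₂ URep.sum (by
    rintro V V' ⟨e, he⟩ W W' ⟨f, hf⟩
    refine ⟨e.sum f, fun g x => ?_⟩
    change (WithLp.toLp 2 (e.app ((V.ψ g).app (WithLp.fst x)), f.app ((W.ψ g).app (WithLp.snd x)))) =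
      WithLp.toLp 2 ((V'.ψ g).app (e.app (WithLp.fst x)), (W'.ψ g).app (f.app (WithLp.snd x)))
    rw [he, hf])

/-- The zero of `Λ⁺(G)` is the class of the zero representation. -/
noncomputable instance Lam.instZero (G : Type) [Group G] : Zero (Lam G) where
  zero := Quotient.mk _ (URep.zero G)

/-- `Λ⁺(G)` is a commutative monoid under direct sum. -/
noncomputable instance Lam.instAddCommMonoid (G : Type) [Group G] : AddCommMonoid (Lam G) where
  add_assoc := by
    rintro ⟨V⟩ ⟨W⟩ ⟨U⟩
    refine Quotient.sound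
      ⟨LinearIsometryEquiv.withLpProdAssoc 2 ℂ V.X.E W.X.E U.X.E, fun g x => ?_⟩
    rfl
  add_comm := by
    rintro ⟨V⟩ ⟨W⟩
    refine Quotient.sound ⟨LinearIsometryEquiv.withLpProdComm 2 ℂ V.X.E W.X.E, fun g x => ?_⟩
    rfl
  zero_add := by
    rintro ⟨V⟩
    refine Quotient.sound ⟨LinearIsometryEquiv.withLpUniqueProd 2 ℂ PUnit V.X.E, fun g x => ?_⟩
    rfl
  add_zero := by
    rintro ⟨V⟩
    refine Quotient.sound ⟨LinearIsometryEquiv.withLpProdUnique 2 ℂ V.X.E PUnit, fun g x => ?_⟩
    rfl
  nsmul := nsmulRec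

/-- The class `ψ^#` in `Λ⁺(G)` of a representation `ψ`. -/
def URep.cls (V : URep G) : Lam G := Quotient.mk _ V

/-- The restriction map `Λ⁺(G) → Λ⁺(H)`, `ψ^# ↦ (ψ ∘ i)^#`, an additive homomorphism. -/
noncomputable def res {H : Type} [Group H] (i : H →* G) : Lam G →+ Lam H where
  toFun := Quotient.map (fun V => V.comp i) (by
    rintro V V' ⟨e, he⟩
    exact ⟨e, fun g x => he (i g) x⟩)
  map_zero' := rfl
  map_add' := by
    rintro ⟨V⟩ ⟨W⟩
    rfl

/-- The action of a group element as a linear isometry equivalence (for the proofs). -/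
noncomputable def URep.act (V : URep G) (g : G) : V.X.E ≃ₗᵢ[ℂ] V.X.E := V.ψ g

/-! ### The example -/

/-- The relators of the example: `t s t⁻¹ = s²`, `d² = 1` and `d` commutes with `s d s⁻¹`. -/
def rels : Set (FreeGroup (Fin 3)) :=
  {FreeGroup.of 1 * FreeGroup.of 0 * (FreeGroup.of 1)⁻¹ * (FreeGroup.of 0 * FreeGroup.of 0)⁻¹,
   FreeGroup.of 2 * FreeGroup.of 2,
   FreeGroup.of 2 * (FreeGroup.of 0 * FreeGroup.of 2 * (FreeGroup.of 0)⁻¹) *
     (FreeGroup.of 0 * FreeGroup.of 2 * (FreeGroup.of 0)⁻¹ * FreeGroup.of 2)⁻¹}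

/-- The group of the example. -/
abbrev Ex : Type := PresentedGroup rels

def s : Ex := PresentedGroup.of 0
def t : Ex := PresentedGroup.of 1
def d : Ex := PresentedGroup.of 2
def h : Ex := d * (s * d * s⁻¹)

lemma rel1 : t * s * t⁻¹ = s * s := by
  have := (QuotientGroup.eq_one_iff (N := Subgroup.normalClosure rels)
    (FreeGroup.of 1 * FreeGroup.of 0 * (FreeGroup.of 1)⁻¹ *
      (FreeGroup.of 0 * FreeGroup.of 0)⁻¹ : FreeGroup (Fin 3))).2
    (Subgroup.subset_normalClosure (by simp [rels]))
  have h2 : t * s * t⁻¹ * (s * s)⁻¹ = 1 := this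
  exact mul_inv_eq_one.1 h2

lemma rel2 : d * d = 1 := by
  have := (QuotientGroup.eq_one_iff (N := Subgroup.normalClosure rels)
    (FreeGroup.of 2 * FreeGroup.of 2 : FreeGroup (Fin 3))).2
    (Subgroup.subset_normalClosure (by simp [rels]))
  exact this

lemma rel3 : d * (s * d * s⁻¹) = s * d * s⁻¹ * d := by
  have := (QuotientGroup.eq_one_iff (N := Subgroup.normalClosure rels)
    (FreeGroup.of 2 * (FreeGroup.of 0 * FreeGroup.of 2 * (FreeGroup.of 0)⁻¹) *
     (FreeGroup.of 0 * FreeGroup.of 2 * (FreeGroup.of 0)⁻¹ * FreeGroup.of 2)⁻¹ :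
       FreeGroup (Fin 3))).2
    (Subgroup.subset_normalClosure (by simp [rels]))
  have h2 : d * (s * d * s⁻¹) * (s * d * s⁻¹ * d)⁻¹ = 1 := this
  exact mul_inv_eq_one.1 h2

lemma h_sq : h * h = 1 := by
  have e1 : h = s * d * s⁻¹ * d := rel3
  calc h * h = (s * d * s⁻¹ * d) * (d * (s * d * s⁻¹)) := by rw [← e1]; rfl
    _ = s * d * s⁻¹ * (d * d) * (s * d * s⁻¹) := by simp only [mul_assoc]
    _ = s * d * (d * s⁻¹) := by rw [rel2]; simp only [mul_assoc, one_mul, inv_mul_cancel_left]
    _ = s * (d * d) * s⁻¹ := by simp only [mul_assoc]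
    _ = 1 := by rw [rel2]; simp

instance : Group.IsFinitelyPresented Ex :=
  ⟨3, PresentedGroup.mk rels, PresentedGroup.mk_surjective rels, rels, by
    unfold rels
    exact (Set.finite_singleton _).insert _ |>.insert _, by
    exact (QuotientGroup.ker_mk' (Subgroup.normalClosure rels)).symm⟩

lemma psi_mul {G : Type} [Group G] (V : URep G) (g k : G) (x : V.X.E) :
    V.act g (V.act k x) = V.act (g * k) x := by
  unfold URep.act
  rw [map_mul]; rfl

lemma psi_one {G : Type} [Group G] (V : URep G) (x : V.X.E) : V.act 1 x = x := by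
  unfold URep.act
  rw [map_one]; rfl

/-! ### In a representation of `Ex` on a nonzero space, `h` has a nonzero fixed vector -/

lemma exists_fixed (V : URep Ex) [Nontrivial V.X.E] : ∃ x : V.X.E, x ≠ 0 ∧ V.act h x = x := by
  by_contra hcon
  push Not at hcon
  have hneg : ∀ x : V.X.E, V.act h x = -x := by
    intro x
    by_contra hx
    have h1 : x + V.act h x ≠ 0 := fun h0 => hx (eq_neg_of_add_eq_zero_right h0)
    refine hcon _ h1 ?_
    rw [map_add, psi_mul, h_sq, psi_one, add_comm]
  -- linear maps
  let U : Module.End ℂ V.X.E := (V.act s).toLinearEquiv.toLinearMap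
  have hD : ∀ x, V.act d (V.act d x) = x := by
    intro x
    rw [psi_mul, rel2, psi_one]
  have hanti : ∀ x, V.act s (V.act d x) = - V.act d (V.act s x) := by
    intro x
    have h1 := hneg (V.act s x)
    have h2 : V.act h (V.act s x) = V.act d (V.act s (V.act d x)) := by
      simp only [psi_mul]
      congr 2
      unfold h
      simp only [mul_assoc, inv_mul_cancel, mul_one]
    rw [h2] at h1
    have h3 := congrArg (V.act d) h1
    rw [hD, map_neg] at h3
    exact h3
  have hU0 : ∀ {μ : ℂ} {x : V.X.E}, U.HasEigenvector μ x → μ ≠ 0 := by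
    intro μ x hx h0
    apply hx.2
    have h1 : U x = μ • x := hx.apply_eq_smul
    rw [h0, zero_smul] at h1
    exact (V.act s).map_eq_zero_iff.1 h1
  -- the eigenvalues are stable under negation
  have hnegeig : ∀ μ : ℂ, U.HasEigenvalue μ → U.HasEigenvalue (-μ) := by
    intro μ hμ
    obtain ⟨x, hx⟩ := hμ.exists_hasEigenvector
    refine Module.End.hasEigenvalue_of_hasEigenvector (x := V.act d x) ⟨?_, ?_⟩
    · rw [Module.End.mem_eigenspace_iff]
      have h1 : V.act s x = μ • x := hx.apply_eq_smul
      change V.act s (V.act d x) = _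
      rw [hanti, h1, map_smul, neg_smul]
    · intro h0
      exact hx.2 ((V.act d).map_eq_zero_iff.1 h0)
  have hTU : ∀ x, V.act t (V.act s x) = V.act s (V.act s (V.act t x)) := by
    intro x
    simp only [psi_mul]
    congr 2
    have := congrArg (· * t) rel1
    simpa [mul_assoc] using this
  have hfin : Set.Finite {μ : ℂ | U.HasEigenvalue μ} := Module.End.finite_hasEigenvalue U
  -- squaring is surjective on eigenvalues
  have hsurj : Set.SurjOn (fun μ : ℂ => μ ^ 2) {μ : ℂ | U.HasEigenvalue μ}
      {μ : ℂ | U.HasEigenvalue μ} := by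
    intro ν hν
    obtain ⟨x, hx⟩ := Module.End.HasEigenvalue.exists_hasEigenvector hν
    obtain ⟨μ, hμ⟩ : ∃ μ : ℂ, ν = μ ^ 2 := by
      obtain ⟨μ, hμ⟩ := IsAlgClosed.exists_pow_nat_eq ν (n := 2) (by norm_num)
      exact ⟨μ, hμ.symm⟩
    have h1 : V.act s x = ν • x := hx.apply_eq_smul
    set y := V.act t x with hy
    have hy0 : y ≠ 0 := by
      intro h0
      exact hx.2 ((V.act t).map_eq_zero_iff.1 h0)
    have hyy : V.act s (V.act s y) = (μ ^ 2) • y := by
      rw [hy, ← hTU, h1, map_smul, hμ]
    by_cases hz : V.act s y + μ • y = 0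
    · refine ⟨-μ, ?_, by simp [hμ]⟩
      refine Module.End.hasEigenvalue_of_hasEigenvector (x := y) ⟨?_, hy0⟩
      rw [Module.End.mem_eigenspace_iff]
      change V.act s y = _
      rw [neg_smul]
      exact eq_neg_of_add_eq_zero_left hz
    · refine ⟨μ, ?_, hμ.symm⟩
      refine Module.End.hasEigenvalue_of_hasEigenvector (x := V.act s y + μ • y) ⟨?_, hz⟩
      rw [Module.End.mem_eigenspace_iff]
      change V.act s (V.act s y + μ • y) = _
      rw [map_add, hyy, map_smul, smul_add, smul_smul, pow_two, add_comm]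
  have hmaps : Set.MapsTo (fun μ : ℂ => μ ^ 2) {μ : ℂ | U.HasEigenvalue μ}
      {μ : ℂ | U.HasEigenvalue μ} := by
    intro μ hμ
    obtain ⟨x, hx⟩ := Module.End.HasEigenvalue.exists_hasEigenvector hμ
    have h1 : V.act s x = μ • x := hx.apply_eq_smul
    refine Module.End.hasEigenvalue_of_hasEigenvector (x := (V.act t).symm x) ⟨?_, ?_⟩
    · rw [Module.End.mem_eigenspace_iff]
      change V.act s ((V.act t).symm x) = _
      apply (V.act t).injective
      rw [hTU, LinearIsometryEquiv.apply_symm_apply, h1, map_smul, h1, map_smul,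
        LinearIsometryEquiv.apply_symm_apply, smul_smul]
      simp only [pow_two]
    · intro h0
      exact hx.2 ((V.act t).symm.map_eq_zero_iff.1 h0)
  have hinj : Set.InjOn (fun μ : ℂ => μ ^ 2) {μ : ℂ | U.HasEigenvalue μ} :=
    (Set.Finite.surjOn_iff_bijOn_of_mapsTo hfin hmaps).1 hsurj |>.injOn
  obtain ⟨μ, hμ⟩ := Module.End.exists_eigenvalue U
  have h2 := hinj (hnegeig μ hμ) hμ (by simp)
  obtain ⟨x, hx⟩ := hμ.exists_hasEigenvector
  apply hU0 hx
  have h3 : (2 : ℂ) * μ = 0 := by linear_combination - h2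
  simpa using h3

/-! ### The representations of odd dimension `2m+1` -/

section Family

variable (m : ℕ)

/-- Odd modulus. -/
abbrev Idx : Type := ZMod (2 * m + 1)

/-- `2` is a unit modulo `2m+1`; multiplication by `2`. -/
def dbl : Equiv.Perm (Idx m) where
  toFun x := 2 * x
  invFun x := (m + 1) * x
  left_inv x := by
    have h1 : ((2 * m + 1 : ℕ) : Idx m) = 0 := ZMod.natCast_self _
    push_cast at h1
    linear_combination x * h1
  right_inv x := by
    have h1 : ((2 * m + 1 : ℕ) : Idx m) = 0 := ZMod.natCast_self _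
    push_cast at h1
    linear_combination x * h1

lemma dbl_symm_apply (x : Idx m) : (dbl m).symm x = (m + 1) * x := rfl

/-- The shift `x ↦ x + 1`. -/
def shift : Equiv.Perm (Idx m) where
  toFun x := x + 1
  invFun x := x - 1
  left_inv x := by simp
  right_inv x := by simp

lemma shift_symm_apply (x : Idx m) : (shift m).symm x = x - 1 := rfl

/-- The alternating sign `(-1)^x`, `0 ≤ x ≤ 2m`. -/
def sg (x : Idx m) : ℤˣ := (-1) ^ x.val

lemma sg_mul (x : Idx m) (hx : x ≠ 0) : sg m x * sg m (x - 1) = -1 := by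
  have hpos : 0 < x.val := Nat.pos_of_ne_zero (by simpa using hx)
  have h1 : (x - 1).val = x.val - 1 := by
    have h2 : x = ((x.val - 1 : ℕ) : Idx m) + 1 := by
      have : ((x.val - 1 + 1 : ℕ) : Idx m) = x := by
        rw [Nat.sub_add_cancel hpos]; simp
      push_cast at this
      exact this.symm
    have h3 : x - 1 = ((x.val - 1 : ℕ) : Idx m) := by
      rw [sub_eq_iff_eq_add]; exact h2
    rw [h3, ZMod.val_natCast_of_lt]
    have := ZMod.val_lt x
    omega
  unfold sg
  rw [h1, ← pow_add]
  have : Odd (x.val + (x.val - 1)) := ⟨x.val - 1, by omega⟩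
  exact this.neg_one_pow

lemma sg_mul_zero : sg m 0 * sg m (0 - 1) = 1 := by
  have h1 : ((0 : Idx m) - 1).val = 2 * m := by
    have : ((2 * m + 1 : ℕ) : Idx m) = 0 := ZMod.natCast_self _
    have h2 : (0 : Idx m) - 1 = ((2 * m : ℕ) : Idx m) := by
      rw [sub_eq_iff_eq_add, ← this]; push_cast; ring
    rw [h2, ZMod.val_natCast_of_lt (by omega)]
  unfold sg
  rw [h1]
  simp

/-- The Hilbert space `ℂ^(2m+1)`. -/
abbrev Hm : Type := EuclideanSpace ℂ (Idx m)

/-- A permutation acting on coordinates. -/
noncomputable def permIso (σ : Equiv.Perm (Idx m)) : Hm m ≃ₗᵢ[ℂ] Hm m :=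
  LinearIsometryEquiv.piLpCongrLeft 2 ℂ ℂ σ

lemma permIso_apply (σ : Equiv.Perm (Idx m)) (v : Hm m) (x : Idx m) :
    permIso m σ v x = v (σ.symm x) := by
  simp [permIso, LinearIsometryEquiv.piLpCongrLeft_apply, Equiv.piCongrLeft']

/-- The diagonal operator with entries `(-1)^x`. -/
noncomputable def diagIso : Hm m ≃ₗᵢ[ℂ] Hm m :=
  LinearIsometryEquiv.piLpCongrRight 2
    (fun x => if sg m x = 1 then LinearIsometryEquiv.refl ℂ ℂ else LinearIsometryEquiv.neg ℂ)

lemma diagIso_apply (v : Hm m) (x : Idx m) :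
    diagIso m v x = (((sg m x : ℤˣ) : ℤ) : ℂ) * v x := by
  rcases Int.units_eq_one_or (sg m x) with h1 | h1
  · simp [diagIso, LinearIsometryEquiv.piLpCongrRight_apply, h1]
  · simp [diagIso, LinearIsometryEquiv.piLpCongrRight_apply, h1]

/-- The images of the generators. -/
noncomputable def gens : Fin 3 → (Hm m ≃ₗᵢ[ℂ] Hm m) :=
  ![permIso m (shift m), permIso m (dbl m), diagIso m]

lemma mul_apply' (A B : Hm m ≃ₗᵢ[ℂ] Hm m) (v : Hm m) : (A * B) v = A (B v) := rfl

lemma inv_apply' (σ : Equiv.Perm (Idx m)) (v : Hm m) (x : Idx m) :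
    (permIso m σ)⁻¹ v x = v (σ x) := by
  have h1 : permIso m σ ((permIso m σ)⁻¹ v) = v := by
    change (permIso m σ * (permIso m σ)⁻¹) v = v
    rw [mul_inv_cancel]; rfl
  have h2 := permIso_apply m σ ((permIso m σ)⁻¹ v) (σ x)
  rw [h1] at h2
  simpa using h2.symm

lemma sdsinv_apply (v : Hm m) (x : Idx m) :
    (gens m 0 * gens m 2 * (gens m 0)⁻¹) v x = (((sg m (x - 1) : ℤˣ) : ℤ) : ℂ) * v x := by
  simp only [gens, mul_apply', Matrix.cons_val_zero, Matrix.cons_val]
  rw [permIso_apply, diagIso_apply, inv_apply', shift_symm_apply]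
  simp [shift]

lemma gens_two_apply (v : Hm m) (x : Idx m) :
    (gens m 2) v x = (((sg m x : ℤˣ) : ℤ) : ℂ) * v x := by
  simp only [gens, Matrix.cons_val]
  rw [diagIso_apply]

lemma gens_rels : ∀ r ∈ rels, FreeGroup.lift (gens m) r = 1 := by
  intro r hr
  simp only [rels, Set.mem_insert_iff, Set.mem_singleton_iff] at hr
  rcases hr with rfl | rfl | rfl
  · simp only [map_mul, map_inv, FreeGroup.lift_apply_of]
    rw [mul_inv_eq_one, mul_inv_eq_iff_eq_mul]
    ext v x
    simp only [gens, mul_apply', Matrix.cons_val_zero, Matrix.cons_val_one]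
    rw [permIso_apply, permIso_apply, permIso_apply, permIso_apply, permIso_apply,
      dbl_symm_apply, dbl_symm_apply, shift_symm_apply, shift_symm_apply, shift_symm_apply]
    have h1 : ((2 * m + 1 : ℕ) : Idx m) = 0 := ZMod.natCast_self _
    push_cast at h1
    have h2 : ((m : Idx m) + 1) * x - 1 = ((m : Idx m) + 1) * (x - 1 - 1) := by
      linear_combination h1
    rw [h2]
  · simp only [map_mul, FreeGroup.lift_apply_of]
    ext v x
    simp only [gens, mul_apply', Matrix.cons_val]
    rw [diagIso_apply, diagIso_apply, ← mul_assoc]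
    have : ((((sg m x : ℤˣ) : ℤ) : ℂ)) * (((sg m x : ℤˣ) : ℤ) : ℂ) = 1 := by
      rcases Int.units_eq_one_or (sg m x) with h1 | h1 <;> simp [h1]
    rw [this, one_mul]
    rfl
  · simp only [map_mul, map_inv, FreeGroup.lift_apply_of]
    rw [mul_inv_eq_one]
    ext v x
    rw [mul_apply' m (gens m 2), mul_apply' m (gens m 0 * gens m 2 * (gens m 0)⁻¹) (gens m 2),
      sdsinv_apply, gens_two_apply, gens_two_apply, sdsinv_apply]
    ring

/-- The representation of `Ex` of dimension `2m+1`. -/
noncomputable def rep : URep Ex where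
  X := HS.mk (Hm m)
  ψ := PresentedGroup.toGroup (gens_rels m)

/-- The operator by which `h` acts. -/
noncomputable def hOp : Hm m ≃ₗᵢ[ℂ] Hm m :=
  gens m 2 * (gens m 0 * gens m 2 * (gens m 0)⁻¹)

lemma rep_h_eq : (rep m).act h = hOp m := by
  change PresentedGroup.toGroup (gens_rels m) h = _
  simp only [hOp, h, d, s, map_mul, map_inv, PresentedGroup.toGroup.of]

lemma hOp_apply (v : Hm m) (x : Idx m) :
    hOp m v x = (((sg m x * sg m (x - 1) : ℤˣ) : ℤ) : ℂ) * v x := by
  rw [hOp, mul_apply', gens_two_apply, sdsinv_apply]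
  push_cast
  ring

lemma finrank_rep : Module.finrank ℂ (rep m).X.E = 2 * m + 1 := by
  change Module.finrank ℂ (Hm m) = _
  simp [Hm, Idx]

end Family

/-! ### The two additive functions: dimension, and dimension of the invariants -/

/-- The subspace of invariant vectors. -/
def URep.fixed {H : Type} [Group H] (V : URep H) : Submodule ℂ V.X.E where
  carrier := {x | ∀ g : H, V.act g x = x}
  add_mem' := by
    intro a b ha hb g
    rw [map_add, ha g, hb g]
  zero_mem' := by
    intro g
    exact map_zero _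
  smul_mem' := by
    intro c x hx g
    rw [map_smul, hx g]

/-- The dimension as an additive function on `Λ⁺(H)`. -/
noncomputable def dimHom (H : Type) [Group H] : Lam H →+ ℕ where
  toFun := Quotient.lift (fun V : URep H => Module.finrank ℂ V.X.E) (by
    rintro V W ⟨e, he⟩
    exact e.toLinearEquiv.finrank_eq)
  map_zero' := by
    change Module.finrank ℂ PUnit = 0
    exact Module.finrank_zero_of_subsingleton
  map_add' := by
    rintro ⟨V⟩ ⟨W⟩
    change Module.finrank ℂ (WithLp 2 (V.X.E × W.X.E)) = Module.finrank ℂ V.X.E + Module.finrank ℂ W.X.E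
    rw [(WithLp.linearEquiv 2 ℂ (V.X.E × W.X.E)).finrank_eq, Module.finrank_prod]

lemma fixed_congr {H : Type} [Group H] {V W : URep H} (hVW : V.IsIso W) :
    Module.finrank ℂ V.fixed = Module.finrank ℂ W.fixed := by
  obtain ⟨e0, he0⟩ := hVW
  let e : V.X.E ≃ₗᵢ[ℂ] W.X.E := e0
  have he : ∀ (g : H) (x : V.X.E), e (V.act g x) = W.act g (e x) := he0
  have h1 : Submodule.map e.toLinearEquiv.toLinearMap V.fixed = W.fixed := by
    ext y
    simp only [Submodule.mem_map]
    constructor
    · rintro ⟨x, hx, rfl⟩ g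
      change W.act g (e x) = e x
      rw [← he, hx g]
    · intro hy
      refine ⟨e.symm y, fun g => ?_, e.apply_symm_apply y⟩
      apply e.injective
      rw [he, e.apply_symm_apply, hy g]
  rw [← h1]
  exact (LinearEquiv.finrank_map_eq e.toLinearEquiv V.fixed).symm

lemma fixed_sum {H : Type} [Group H] (V W : URep H) :
    Module.finrank ℂ (V.sum W).fixed =
      Module.finrank ℂ V.fixed + Module.finrank ℂ W.fixed := by
  rw [← Module.finrank_prod]
  refine LinearEquiv.finrank_eq
    { toFun := fun x => (⟨(x.1 : WithLp 2 (V.X.E × W.X.E)).fst, fun g => ?_⟩,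
        ⟨(x.1 : WithLp 2 (V.X.E × W.X.E)).snd, fun g => ?_⟩)
      invFun := fun y => ⟨(WithLp.toLp 2 (y.1.1, y.2.1) : WithLp 2 (V.X.E × W.X.E)), fun g => ?_⟩
      map_add' := fun _ _ => rfl
      map_smul' := fun _ _ => rfl
      left_inv := fun _ => rfl
      right_inv := fun _ => rfl }
  · exact congrArg (fun z : WithLp 2 (V.X.E × W.X.E) => z.fst) (x.2 g)
  · exact congrArg (fun z : WithLp 2 (V.X.E × W.X.E) => z.snd) (x.2 g)
  · change (WithLp.toLp 2 (V.act g y.1.1, W.act g y.2.1) : WithLp 2 (V.X.E × W.X.E)) = _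
    rw [y.1.2 g, y.2.2 g]

/-- The dimension of the invariants as an additive function on `Λ⁺(H)`. -/
noncomputable def fixHom (H : Type) [Group H] : Lam H →+ ℕ where
  toFun := Quotient.lift (fun V : URep H => Module.finrank ℂ V.fixed) (by
    intro V W hVW
    exact fixed_congr hVW)
  map_zero' := by
    change Module.finrank ℂ (URep.zero H).fixed = 0
    have : Subsingleton (URep.zero H).X.E := inferInstanceAs (Subsingleton PUnit)
    exact Module.finrank_zero_of_subsingleton
  map_add' := by
    rintro ⟨V⟩ ⟨W⟩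
    exact fixed_sum V W

/-- A submonoid on which `N > 0` forces `b > 0` but `N / b` is unbounded is not finitely
generated. -/
lemma not_fg {L : Type 1} [AddCommMonoid L] (S : AddSubmonoid L) (N b : L →+ ℕ)
    (h1 : ∀ x ∈ S, 0 < N x → 0 < b x) (h2 : ∀ C : ℕ, ∃ x ∈ S, C * b x < N x) : ¬ S.FG := by
  rintro ⟨T, hT⟩
  obtain ⟨x, hx, hlt⟩ := h2 (T.sup N)
  have key : ∀ y ∈ AddSubmonoid.closure (T : Set L), N y ≤ (T.sup N) * b y := by
    intro y hy
    induction hy using AddSubmonoid.closure_induction with
    | mem y hy =>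
      rcases Nat.eq_zero_or_pos (N y) with h0 | h0
      · omega
      · have hyS : y ∈ S := by rw [← hT]; exact AddSubmonoid.subset_closure hy
        have h3 := h1 y hyS h0
        calc N y ≤ T.sup N := Finset.le_sup (f := N) hy
          _ ≤ (T.sup N) * b y := Nat.le_mul_of_pos_right _ h3
    | zero => simp
    | add y z _ _ hy hz =>
      rw [map_add, map_add, mul_add]
      exact add_le_add hy hz
  rw [hT] at key
  exact absurd (key x hx) (not_le.2 hlt)

/-- The subgroup generated by `h`. -/
abbrev Hsub : Subgroup Ex := Subgroup.zpowers h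

lemma zpowers_fixed (V : URep Ex) (x : V.X.E) (hx : V.act h x = x) (g : Hsub) :
    V.act g.1 x = x := by
  obtain ⟨k, hk⟩ := Subgroup.mem_zpowers_iff.1 g.2
  rw [← hk]
  have : h = 1 ∨ h ≠ 1 := em _
  rcases Int.even_or_odd' k with ⟨j, rfl | rfl⟩
  · rw [zpow_mul]
    have : h ^ (2 : ℤ) = 1 := by rw [zpow_two, h_sq]
    rw [this, one_zpow, psi_one]
  · rw [zpow_add, zpow_mul]
    have : h ^ (2 : ℤ) = 1 := by rw [zpow_two, h_sq]
    rw [this, one_zpow, one_mul, zpow_one, hx]

lemma fixed_le_one (m : ℕ) : Module.finrank ℂ ((rep m).comp Hsub.subtype).fixed ≤ 1 := by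
  have hfix : ∀ y : ((rep m).comp Hsub.subtype).fixed, ∀ v : Hm m, v = y.1 →
      v = v 0 • EuclideanSpace.single 0 1 := by
    intro y v hv
    have h1 : hOp m v = v := by
      rw [← rep_h_eq]
      have h2 := y.2 ⟨h, Subgroup.mem_zpowers h⟩
      rw [← hv] at h2
      exact h2
    ext x
    by_cases hx : x = 0
    · subst hx
      simp
    · have h3 := hOp_apply m v x
      rw [h1, sg_mul m x hx] at h3
      have h4 : v x = 0 := by
        have : (2 : ℂ) * v x = 0 := by
          push_cast at h3
          linear_combination h3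
        simpa using this
      simp [hx, h4]
  have h0 : ∀ g : Hsub, ((rep m).comp Hsub.subtype).act g
      (show Hm m from EuclideanSpace.single 0 1) = (show Hm m from EuclideanSpace.single 0 1) := by
    intro g
    refine zpowers_fixed (rep m) (show Hm m from EuclideanSpace.single 0 1) ?_ g
    rw [rep_h_eq]
    change hOp m (EuclideanSpace.single 0 1) = EuclideanSpace.single 0 1
    ext x
    rw [hOp_apply]
    by_cases hx : x = 0
    · subst hx
      rw [sg_mul_zero]
      simp
    · simp [hx]
  refine finrank_le_one ⟨(show Hm m from EuclideanSpace.single 0 1), h0⟩ ?_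
  intro y
  refine ⟨(show Hm m from y.1) 0, ?_⟩
  apply Subtype.ext
  exact (hfix y _ rfl).symm

/-- **Negative answer to Q1 (setting (R)).** There are a finitely presented group `G` and a
subgroup `H` of order `2` such that the image of the restriction map
`i^* : Λ⁺(G) → Λ⁺(H)` is not a finitely generated commutative monoid. -/
theorem result : ∃ (G : Type) (_ : Group G) (H : Subgroup G),
    Group.IsFinitelyPresented G ∧ Group.FG G ∧ Nat.card H = 2 ∧
      ¬ (AddMonoidHom.mrange (res (G := G) H.subtype)).FG := by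
  refine ⟨Ex, inferInstance, Hsub, inferInstance, ?_, ?_, ?_⟩
  · exact Group.fg_of_surjective (PresentedGroup.mk_surjective rels)
  · rw [Nat.card_zpowers, orderOf_eq_prime_iff]
    refine ⟨by rw [pow_two, h_sq], fun h1 => ?_⟩
    have h2 := hOp_apply 1 (EuclideanSpace.single 1 1) 1
    have h3 : hOp 1 = 1 := by
      rw [← rep_h_eq, h1]
      exact map_one (rep 1).ψ
    rw [h3, sg_mul 1 1 (by decide)] at h2
    change (EuclideanSpace.single (1 : Idx 1) (1 : ℂ) : Hm 1) 1 = _ at h2
    simp at h2
    norm_num at h2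
  · refine not_fg _ (dimHom Hsub) (fixHom Hsub) ?_ ?_
    · rintro _ ⟨⟨V⟩, rfl⟩ hpos
      change 0 < Module.finrank ℂ (V.comp Hsub.subtype).fixed
      change 0 < Module.finrank ℂ V.X.E at hpos
      have : Nontrivial V.X.E := Module.finrank_pos_iff.1 hpos
      obtain ⟨x, hx0, hx⟩ := exists_fixed V
      refine Module.finrank_pos_iff.2 ⟨⟨x, fun g => zpowers_fixed V x hx g⟩, 0, ?_⟩
      intro h0
      exact hx0 (congrArg Subtype.val h0)
    · intro C
      refine ⟨res Hsub.subtype (rep C).cls, ⟨_, rfl⟩, ?_⟩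
      change C * Module.finrank ℂ ((rep C).comp Hsub.subtype).fixed < Module.finrank ℂ (rep C).X.E
      rw [finrank_rep]
      have := fixed_le_one C
      nlinarith

end Pool.Agent.Results.MP_af3a77_al.UnitaryRestriction
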